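import Pool.Agent.helper73.SHL.Spec

/-!
# shl:SPL (MP_a2a22c_al): a matrix algebra of full size contains an element of rank one
-/

set_option autoImplicit false

namespace Pool.Agent.SHL

open Matrix Module

theorem SPL_trace {n : ℕ} {F : Type} [Field F] [CharZero F] (e : Matrix (Fin n) (Fin n) F)
    (he : e * e = e) : e.trace = (e.rank : F) := by
  have h1 : IsIdempotentElem (Matrix.toLin' e) := by
    unfold IsIdempotentElem
    rw [Module.End.mul_eq_comp, ← Matrix.toLin'_mul, he]
  have h2 := ((LinearMap.isProj_range_iff_isIdempotentElem (Matrix.toLin' e)).mpr h1).trace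
  rw [Matrix.trace_toLin'_eq] at h2
  rw [h2]
  rfl

theorem SPL : SPL_stmt := by
  intro n hn F _ _ R D _ _ _ ψ hθ
  obtain ⟨θ⟩ := hθ
  classical
  let u : Fin n → Fin n → Matrix (Fin n) (Fin n) F := fun i j => ψ (θ.symm (Matrix.single i j 1))
  have hu : ∀ i j k, u i j * u j k = u i k := by
    intro i j k
    simp only [u]
    rw [← map_mul, ← map_mul, Matrix.single_mul_single_same, one_mul]
  have hsum : ∑ i, u i i = 1 := by
    have h1 : ∑ i : Fin n, (Matrix.single i i 1 : Matrix (Fin n) (Fin n) D) = 1 := by
      ext a b
      rw [Matrix.sum_apply]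
      by_cases hab : a = b
      · subst hab
        rw [Finset.sum_eq_single a]
        · simp
        · intro c _ hc
          rw [Matrix.single_apply_of_ne]
          intro h; exact hc h.1
        · simp
      · rw [Matrix.one_apply_ne hab]
        apply Finset.sum_eq_zero
        intro c _
        rw [Matrix.single_apply_of_ne]
        intro h; exact hab (h.1.symm.trans h.2)
    simp only [u]
    rw [← map_sum, ← map_sum, h1, map_one, map_one]
  have hrk : ∀ i j, (u i i).rank ≤ (u j j).rank := by
    intro i j
    have h1 : u i i = u i j * (u j j * u j i) := by rw [hu, hu]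
    rw [h1]
    exact (Matrix.rank_mul_le_right _ _).trans (Matrix.rank_mul_le_left _ _)
  have i0 : Fin n := ⟨0, hn⟩
  have hall : ∀ i, (u i i).rank = (u i0 i0).rank := fun i => le_antisymm (hrk i i0) (hrk i0 i)
  have htr : (n : F) = (n : F) * ((u i0 i0).rank : F) := by
    have h1 := congrArg Matrix.trace hsum
    rw [Matrix.trace_sum, Matrix.trace_one, Fintype.card_fin] at h1
    have h3 : ∀ i, (u i i).trace = ((u i0 i0).rank : F) := by
      intro i
      rw [SPL_trace (u i i) (hu i i i), hall i]
    rw [Finset.sum_congr rfl (fun i _ => h3 i), Finset.sum_const, Finset.card_univ,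
      Fintype.card_fin, nsmul_eq_mul] at h1
    exact h1.symm
  refine ⟨θ.symm (Matrix.single i0 i0 1), ?_⟩
  have h2 : n * 1 = n * (u i0 i0).rank := by
    rw [mul_one]
    exact_mod_cast htr
  exact (Nat.eq_of_mul_eq_mul_left hn h2).symm

end Pool.Agent.SHL
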