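import Pool.Agent.helper73.SHL.Spec

/-!
# shl:STR (MP_a2a22c_al): a solvable group of `D`-linear maps has a virtually abelian irreducible submodule
-/

set_option autoImplicit false

namespace Pool.Agent.SHL

open Matrix Module Pool.Agent.PR TensorProduct

/-- restriction of scalars to `ℚ` followed by the extension of scalars to `K` -/
noncomputable def STR_ext (K : Type) [Field K] [Algebra ℚ K] {D V Q : Type} [DivisionRing D] [Algebra ℚ D]
    [AddCommGroup V] [Module D V] [Module ℚ V] [IsScalarTower ℚ D V] [Group Q]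
    (ρ : Q →* Module.End D V) : Q →* Module.End K (K ⊗[ℚ] V) where
  toFun g := LinearMap.baseChange K ((ρ g).restrictScalars ℚ)
  map_one' := by
    apply LinearMap.ext
    intro x
    induction x with
    | zero => simp
    | tmul a b => simp
    | add a b ha hb => rw [map_add, map_add, ha, hb]
  map_mul' g h := by
    apply LinearMap.ext
    intro x
    induction x with
    | zero => simp
    | tmul a b => simp
    | add a b ha hb => rw [map_add, map_add, ha, hb]

theorem STR_coord {K V ι : Type} [DecidableEq ι] [Field K] [Algebra ℚ K] [AddCommGroup V] [Module ℚ V]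
    (κ : Basis ι ℚ K) (T : V →ₗ[ℚ] V) (x : K ⊗[ℚ] V) (i : ι) :
    TensorProduct.equivFinsuppOfBasisLeft κ (LinearMap.baseChange K T x) i =
      T (TensorProduct.equivFinsuppOfBasisLeft κ x i) := by
  induction x with
  | zero => simp
  | tmul a b =>
    rw [LinearMap.baseChange_tmul, TensorProduct.equivFinsuppOfBasisLeft_apply_tmul_apply,
      TensorProduct.equivFinsuppOfBasisLeft_apply_tmul_apply, map_smul]
  | add a b ha hb => rw [map_add, map_add, map_add, Finsupp.add_apply, Finsupp.add_apply, ha, hb, map_add]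

theorem STR (hZ : Z_MAL_stmt) : STR_stmt := by
  intro D _ _ _ V _ _ _ _ _ _ Q _ hQ ρ
  classical
  have hfd : FiniteDimensional ℚ V := Module.Finite.trans D V
  let K := AlgebraicClosure ℚ
  let ρK := STR_ext K ρ
  obtain ⟨G₁, hG₁, hT⟩ := hZ K (K ⊗[ℚ] V) Q hQ ρK
  have : Nontrivial (K ⊗[ℚ] V) := by
    obtain ⟨w, hw⟩ := exists_ne (0 : V)
    refine ⟨⟨(1 : K) ⊗ₜ w, 0, ?_⟩⟩
    intro h
    apply hw
    let κ := Basis.ofVectorSpace ℚ K
    have h1 : ∀ i, TensorProduct.equivFinsuppOfBasisLeft κ ((1 : K) ⊗ₜ[ℚ] w) i = 0 := by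
      intro i; rw [h]; simp
    by_contra hne
    have h2 : ∀ i, κ.repr 1 i = 0 := by
      intro i
      have := h1 i
      rw [TensorProduct.equivFinsuppOfBasisLeft_apply_tmul_apply] at this
      exact (smul_eq_zero.mp this).resolve_right hne
    have h3 : κ.repr (1 : K) = 0 := Finsupp.ext h2
    exact one_ne_zero ((LinearEquiv.map_eq_zero_iff κ.repr).mp h3)
  obtain ⟨v, -, hv0, hv⟩ := hT ⊥ ⊤ (by
    intro g w hw
    rw [Submodule.mem_bot] at hw ⊢
    rw [hw, map_zero]) (fun _ _ _ => Submodule.mem_top) bot_lt_top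
  rw [Submodule.mem_bot] at hv0
  have hv' : ∀ g ∈ G₁, ∃ c : K, ρK g v = c • v := by
    intro g hg
    obtain ⟨c, hc⟩ := hv ⟨g, hg⟩
    rw [Submodule.mem_bot, sub_eq_zero] at hc
    exact ⟨c, hc⟩
  -- commutation on `v`
  have hcomm : ∀ g ∈ G₁, ∀ h ∈ G₁, ρK (g * h) v = ρK (h * g) v := by
    intro g hg h hh
    obtain ⟨c, hc⟩ := hv' g hg
    obtain ⟨d, hd⟩ := hv' h hh
    rw [map_mul, map_mul, Module.End.mul_apply, Module.End.mul_apply, hc, hd, map_smul, map_smul, hc, hd,
      smul_smul, smul_smul, mul_comm]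
  let F : Submodule D V :=
    { carrier := {w | ∀ c ∈ G₁, ρK c v = v → ρ c w = w}
      add_mem' := by
        intro a b ha hb c hc hcv
        rw [map_add, ha c hc hcv, hb c hc hcv]
      zero_mem' := by
        intro c _ _
        rw [map_zero]
      smul_mem' := by
        intro r a ha c hc hcv
        rw [map_smul, ha c hc hcv] }
  have hFmem : ∀ w, w ∈ F ↔ ∀ c ∈ G₁, ρK c v = v → ρ c w = w := fun w => Iff.rfl
  have hFne : F ≠ ⊥ := by
    let κ := Basis.ofVectorSpace ℚ K
    have h1 : TensorProduct.equivFinsuppOfBasisLeft κ v ≠ 0 := by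
      intro h
      exact hv0 ((LinearEquiv.map_eq_zero_iff _).mp h)
    obtain ⟨i, hi⟩ : ∃ i, TensorProduct.equivFinsuppOfBasisLeft κ v i ≠ 0 := by
      by_contra hne
      push Not at hne
      exact h1 (Finsupp.ext hne)
    intro hF
    apply hi
    have h2 : TensorProduct.equivFinsuppOfBasisLeft κ v i ∈ F := by
      rw [hFmem]
      intro c hc hcv
      have h3 := STR_coord κ ((ρ c).restrictScalars ℚ) v i
      have h4 : LinearMap.baseChange K ((ρ c).restrictScalars ℚ) v = v := hcv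
      rw [h4] at h3
      exact h3.symm
    rw [hF, Submodule.mem_bot] at h2
    exact h2
  have hFst : ∀ g ∈ G₁, ∀ w ∈ F, ρ g w ∈ F := by
    intro g hg w hw
    rw [hFmem] at hw ⊢
    intro c hc hcv
    have h1 : g⁻¹ * c * g ∈ G₁ := G₁.mul_mem (G₁.mul_mem (G₁.inv_mem hg) hc) hg
    have h2 : ρK (g⁻¹ * c * g) v = v := by
      rw [hcomm (g⁻¹ * c) (G₁.mul_mem (G₁.inv_mem hg) hc) g hg]
      rw [← mul_assoc, mul_inv_cancel, one_mul]
      exact hcv
    have h3 := hw _ h1 h2
    calc ρ c (ρ g w) = ρ (c * g) w := by rw [map_mul, Module.End.mul_apply]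
      _ = ρ (g * (g⁻¹ * c * g)) w := by
          congr 2
          group
      _ = ρ g (ρ (g⁻¹ * c * g) w) := by rw [map_mul, Module.End.mul_apply]
      _ = ρ g w := by rw [h3]
  have hFco : ∀ g ∈ G₁, ∀ h ∈ G₁, ∀ w ∈ F, ρ (g * h) w = ρ (h * g) w := by
    intro g hg h hh w hw
    rw [hFmem] at hw
    have hhg : (h * g)⁻¹ ∈ G₁ := G₁.inv_mem (G₁.mul_mem hh hg)
    have h1 : (h * g)⁻¹ * (g * h) ∈ G₁ := G₁.mul_mem hhg (G₁.mul_mem hg hh)
    have h2 : ρK ((h * g)⁻¹ * (g * h)) v = v := by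
      rw [map_mul, Module.End.mul_apply, hcomm g hg h hh, ← Module.End.mul_apply, ← map_mul,
        inv_mul_cancel, map_one, Module.End.one_apply]
    have h3 := hw _ h1 h2
    calc ρ (g * h) w = ρ ((h * g) * ((h * g)⁻¹ * (g * h))) w := by rw [mul_inv_cancel_left]
      _ = ρ (h * g) (ρ ((h * g)⁻¹ * (g * h)) w) := by rw [map_mul, Module.End.mul_apply]
      _ = ρ (h * g) w := by rw [h3]
  have : IsArtinian D V := inferInstance
  let S : Set (Submodule D V) := {W | W ≠ ⊥ ∧ W ≤ F ∧ ∀ g ∈ G₁, ∀ w ∈ W, ρ g w ∈ W}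
  have hS : S.Nonempty := ⟨F, hFne, le_rfl, hFst⟩
  obtain ⟨L, hL, hmin⟩ := (wellFounded_lt : WellFounded (fun a b : Submodule D V => a < b)).has_min S hS
  obtain ⟨hL0, hLF, hLst⟩ := hL
  refine ⟨G₁, L, hG₁, hL0, hLst, fun g hg h hh w hw => hFco g hg h hh w (hLF hw), ?_⟩
  intro W hWL hW
  by_cases hW0 : W = ⊥
  · exact Or.inl hW0
  · right
    by_contra hne
    exact hmin W ⟨hW0, hWL.trans hLF, hW⟩ (lt_of_le_of_ne hWL hne)

end Pool.Agent.SHL
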